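import Pool.Agent.R658.UA.Main
import Pool.Agent.R658.UA.TSTEP
import Pool.Agent.R658.UA.TCLOSE
import Pool.Agent.R658.UA.TEXT
import Pool.Agent.R658.UA.TNAOBJ
import Pool.Agent.R658.UA.TCHAIN
import Pool.Agent.R658.UA.TDENSE
import Pool.Agent.R658.UA.TLIMG
import Pool.Agent.R658.UA.TLIMX
import Pool.Agent.R658.UA.TSTEPU
import Pool.Agent.R658.UA.TEXH
import Pool.Agent.R658.UA.TREC
import Pool.Agent.R658.UA.TLIMIT

/-! # MP_a2e83c_al: a universal affine isometric action of a countable locally finite group

Q1 has a positive answer. -/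

set_option autoImplicit false

namespace Pool.Agent.Results.MP_a2e83c_al.UniversalAction

open TopologicalSpace R658.UA

/-- There are a countable locally finite group `G` and an action of `G` by isometries on a separable Banach space `X` such
that for every action `actY` by isometries of a countable locally finite group `H` on a separable Banach space `Y`
there are an injective homomorphism `ι : H → G` and an affine isometric embedding `φ : Y → X` which is equivariant via `ι`. -/
theorem result :
    ∃ (G : Type) (_ : Group G) (X : Type) (_ : NormedAddCommGroup X) (_ : NormedSpace ℝ X)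
      (act : G →* (X ≃ᵢ X)), Countable G ∧
      (∀ S : Set G, S.Finite → Finite (Subgroup.closure S)) ∧ CompleteSpace X ∧
      SeparableSpace X ∧
      ∀ (H : Type) [Group H] [Countable H],
        (∀ S : Set H, S.Finite → Finite (Subgroup.closure S)) →
        ∀ (Y : Type) [NormedAddCommGroup Y] [NormedSpace ℝ Y] [CompleteSpace Y] [SeparableSpace Y]
          (actY : H →* (Y ≃ᵢ Y)),
        ∃ (ι : H →* G) (φ : Y →ᵃⁱ[ℝ] X), Function.Injective ι ∧
          ∀ h y, φ (actY h y) = act (ι h) (φ y) := by
  obtain ⟨G, i1, X, i2, i3, act, h1, h2, h3, h4, h5⟩ :=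
    universal (taskNA taskSTEP taskCLOSE taskEXT) taskNAOBJ taskCHAIN taskDENSE taskLIMG taskLIMX
      taskSTEPU taskEXH taskREC taskLIMIT
  exact ⟨G, i1, X, i2, i3, act, h1, h2, h3, h4, fun H _ _ hlf Y _ _ _ _ actY => h5 H hlf Y actY⟩

end Pool.Agent.Results.MP_a2e83c_al.UniversalAction
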